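import Mathlib

/-!
# Minimal log discrepancies of products: data and known facts
-/

namespace Pool.Agent.N522.ML

/-- Pairs, their closed points and minimal log discrepancies. -/
structure Theory where
  /-- pairs `(X, Δ)` as in the question -/
  Pair : Type
  /-- the points `x` of `X` with `dim closure {x} = d` -/
  Pt : Pair → ℕ → Type
  /-- the Zariski topology on them -/
  top : ∀ (P : Pair) (d : ℕ), TopologicalSpace (Pt P d)
  /-- the minimal log discrepancy, with values in `ℝ ∪ {-∞}` -/
  mld : ∀ {P : Pair} {d : ℕ}, Pt P d → WithBot ℝ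
  /-- the product pair `(X × Y, Δ × Y + X × Δ')` -/
  prod : Pair → Pair → Pair
  /-- closed points of a product -/
  pr : ∀ P Q : Pair, Pt (prod P Q) 0 ≃ Pt P 0 × Pt Q 0

attribute [instance] Theory.top

variable {T : Theory}

/-- Lower semicontinuity as in the question. -/
def LSC {α : Type} [TopologicalSpace α] (f : α → WithBot ℝ) : Prop :=
  ∀ a : ℝ, IsClosed {x | f x ≤ (a : WithBot ℝ)}

/-- Q1 for the pair `P` -/
def Q1 (P : T.Pair) : Prop := ∀ d : ℕ, LSC (fun x : T.Pt P d => T.mld x)

/-- Known facts. -/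
structure Facts (T : Theory) : Prop where
  /-- Ambro: the case of closed points suffices -/
  ambro : ∀ P : T.Pair, LSC (fun x : T.Pt P 0 => T.mld x) → Q1 P
  /-- the projections are continuous -/
  fst_cont : ∀ P Q : T.Pair, Continuous fun z : T.Pt (T.prod P Q) 0 => (T.pr P Q z).1
  /-- the projections are continuous -/
  snd_cont : ∀ P Q : T.Pair, Continuous fun z : T.Pt (T.prod P Q) 0 => (T.pr P Q z).2
  /-- the inclusions of the fibres are continuous -/
  left_cont : ∀ (P Q : T.Pair) (y : T.Pt Q 0), Continuous fun x : T.Pt P 0 => (T.pr P Q).symm (x, y)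
  /-- the inclusions of the fibres are continuous -/
  right_cont : ∀ (P Q : T.Pair) (x : T.Pt P 0), Continuous fun y : T.Pt Q 0 => (T.pr P Q).symm (x, y)
  /-- the product formula at closed points (from products of log resolutions) -/
  mld_prod : ∀ (P Q : T.Pair) (x : T.Pt P 0) (y : T.Pt Q 0),
    T.mld ((T.pr P Q).symm (x, y)) = T.mld x + T.mld y
  /-- at a general closed point the minimal log discrepancy is the dimension -/
  finite : ∀ P : T.Pair, ∃ x : T.Pt P 0, T.mld x ≠ ⊥

/-- sums of lower semicontinuous functions -/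
theorem lsc_add {α β γ : Type} [TopologicalSpace α] [TopologicalSpace β] [TopologicalSpace γ]
    {f : α → WithBot ℝ} {g : β → WithBot ℝ} (hf : LSC f) (hg : LSC g) (u : γ → α) (v : γ → β)
    (hu : Continuous u) (hv : Continuous v) : LSC (fun z => f (u z) + g (v z)) := by
  intro a
  rw [← isOpen_compl_iff, isOpen_iff_forall_mem_open]
  intro z hz
  simp only [Set.mem_compl_iff, Set.mem_setOf_eq, not_le] at hz
  obtain ⟨r, hr⟩ : ∃ r : ℝ, f (u z) = (r : WithBot ℝ) := by
    induction hfz : f (u z) using WithBot.recBotCoe with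
    | bot => rw [hfz, WithBot.bot_add] at hz; exact absurd hz (by simp)
    | coe r => exact ⟨r, rfl⟩
  obtain ⟨s, hs⟩ : ∃ s : ℝ, g (v z) = (s : WithBot ℝ) := by
    induction hgz : g (v z) using WithBot.recBotCoe with
    | bot => rw [hgz, WithBot.add_bot] at hz; exact absurd hz (by simp)
    | coe r => exact ⟨r, rfl⟩
  rw [hr, hs, ← WithBot.coe_add, WithBot.coe_lt_coe] at hz
  set δ : ℝ := (r + s - a) / 2 with hδ
  have hδpos : 0 < δ := by rw [hδ]; linarith
  refine ⟨u ⁻¹' {x | f x ≤ ((r - δ : ℝ) : WithBot ℝ)}ᶜ ∩ v ⁻¹' {y | g y ≤ ((s - δ : ℝ) : WithBot ℝ)}ᶜ,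
    ?_, ?_, ?_⟩
  · rintro w ⟨h1, h2⟩
    simp only [Set.mem_preimage, Set.mem_compl_iff, Set.mem_setOf_eq, not_le] at h1 h2 ⊢
    obtain ⟨r', hr'⟩ : ∃ r' : ℝ, f (u w) = (r' : WithBot ℝ) := by
      induction hfz : f (u w) using WithBot.recBotCoe with
      | bot => rw [hfz] at h1; exact absurd h1 (by simp)
      | coe r => exact ⟨r, rfl⟩
    obtain ⟨s', hs'⟩ : ∃ s' : ℝ, g (v w) = (s' : WithBot ℝ) := by
      induction hfz : g (v w) using WithBot.recBotCoe with
      | bot => rw [hfz] at h2; exact absurd h2 (by simp)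
      | coe r => exact ⟨r, rfl⟩
    rw [hr', WithBot.coe_lt_coe] at h1
    rw [hs', WithBot.coe_lt_coe] at h2
    rw [hr', hs', ← WithBot.coe_add, WithBot.coe_lt_coe]
    rw [hδ] at h1 h2
    linarith
  · exact ((hf (r - δ)).isOpen_compl.preimage hu).inter ((hg (s - δ)).isOpen_compl.preimage hv)
  · constructor
    · simp only [Set.mem_preimage, Set.mem_compl_iff, Set.mem_setOf_eq, not_le]
      rw [hr, WithBot.coe_lt_coe]
      linarith
    · simp only [Set.mem_preimage, Set.mem_compl_iff, Set.mem_setOf_eq, not_le]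
      rw [hs, WithBot.coe_lt_coe]
      linarith

theorem le_iff_add (w : WithBot ℝ) (a s : ℝ) :
    w ≤ (a : WithBot ℝ) ↔ w + (s : WithBot ℝ) ≤ ((a + s : ℝ) : WithBot ℝ) := by
  induction w using WithBot.recBotCoe with
  | bot => simp
  | coe r =>
    rw [← WithBot.coe_add, WithBot.coe_le_coe, WithBot.coe_le_coe]
    constructor <;> intro h <;> linarith

theorem q1_prod (F : Facts T) (P Q : T.Pair) : Q1 (T.prod P Q) ↔ Q1 P ∧ Q1 Q := by
  constructor
  · intro h
    constructor
    · apply F.ambro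
      intro a
      obtain ⟨y, hy⟩ := F.finite Q
      obtain ⟨s, hs⟩ : ∃ s : ℝ, T.mld y = (s : WithBot ℝ) :=
        (WithBot.ne_bot_iff_exists.mp hy).imp fun _ h => h.symm
      have h1 := (h 0 (a + s)).preimage (F.left_cont P Q y)
      convert h1 using 1
      ext x
      simp only [Set.mem_setOf_eq, Set.mem_preimage]
      rw [F.mld_prod, hs]
      exact le_iff_add _ _ _
    · apply F.ambro
      intro a
      obtain ⟨x, hx⟩ := F.finite P
      obtain ⟨s, hs⟩ : ∃ s : ℝ, T.mld x = (s : WithBot ℝ) :=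
        (WithBot.ne_bot_iff_exists.mp hx).imp fun _ h => h.symm
      have h1 := (h 0 (a + s)).preimage (F.right_cont P Q x)
      convert h1 using 1
      ext y
      simp only [Set.mem_setOf_eq, Set.mem_preimage]
      rw [F.mld_prod, hs, add_comm (s : WithBot ℝ)]
      exact le_iff_add _ _ _
  · rintro ⟨hP, hQ⟩
    apply F.ambro
    have h := lsc_add (hP 0) (hQ 0) (fun z => (T.pr P Q z).1) (fun z => (T.pr P Q z).2)
      (F.fst_cont P Q) (F.snd_cont P Q)
    intro a
    convert h a using 1
    ext z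
    simp only [Set.mem_setOf_eq]
    have := F.mld_prod P Q (T.pr P Q z).1 (T.pr P Q z).2
    rw [Prod.mk.eta, Equiv.symm_apply_apply] at this
    rw [this]

end Pool.Agent.N522.ML
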